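import Pool.Agent.X126.Perc.Breaker
import Pool.Agent.X126.Perc.Maker

/-!
# The zero-one law for Maker-Breaker percolation games fails

Let `Λ` be the tree in which every branching vertex (hub) has `10` children and neighbouring hubs are joined
by a path with `267` edges (and a path with `267` edges hangs at the root hub), and let `p = 3458 = 13 * 266`,
`q = 114`. From every root Breaker wins the `(p,q)`-percolation game in two rounds: in the first round Maker
can reach at most `12` new hubs and has then `254` further edges; Breaker cuts all but `6` of the `118` chains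
below the component, and the `6` with the smallest number of edges of Maker behind them, which have at most
`12` such edges; so Maker again reaches at most `12` new hubs and Breaker cuts all remaining `≤ 114` chains.
But with many chains at his disposal Maker plays in cycles of three rounds: he completes `12` chains and
claims one edge in each of `254` further chains, at least `140` of which survive Breaker's move, and then he
twice completes `13` chains out of these. He gains `38` hubs, i.e. `9 * 38 = 342 = 3 * 114` chains, as many
as Breaker cuts. A head start of `29` chains is enough for that.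
-/

set_option autoImplicit false

namespace Pool.Agent.Results.MP_aefbf4_co.ZeroOneLawFails

open Pool.Agent.X126.Perc Relation

lemma symm_step (G : MGraph (Option Ed) Ed) {x y : Option Ed} (h : ReflTransGen (G.Step ∅) x y) :
    ReflTransGen (G.Step ∅) y x := by
  induction h with
  | refl => exact ReflTransGen.refl
  | tail _ hs ih =>
    obtain ⟨e, h1, h2⟩ := hs
    exact (ReflTransGen.single ⟨e, h1, h2.symm⟩).trans ih

lemma from_none : ∀ (y : List (Fin 10)) (i : ℕ) (hi : i < 266 + 1),
    ReflTransGen ((tree 10 266).Step ∅) none (some (y, ⟨i, hi⟩)) := by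
  intro y
  induction y with
  | nil =>
    intro i
    induction i with
    | zero => exact fun hi => ReflTransGen.single ((step_iff _ _ _).2 ⟨([], ⟨0, hi⟩),
        Set.notMem_empty _, Or.inl ⟨rfl, rfl⟩⟩)
    | succ i ih => exact fun hi => (ih (Nat.lt_of_succ_lt hi)).tail ((step_iff _ _ _).2
        ⟨([], ⟨i + 1, hi⟩), Set.notMem_empty _, Or.inl ⟨rfl, rfl⟩⟩)
  | cons a y ih0 =>
    intro i
    induction i with
    | zero => exact fun hi => (ih0 266 (Nat.lt_succ_self _)).tail ((step_iff _ _ _).2
        ⟨(a :: y, ⟨0, hi⟩), Set.notMem_empty _, Or.inl ⟨rfl, rfl⟩⟩)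
    | succ i ih => exact fun hi => (ih (Nat.lt_of_succ_lt hi)).tail ((step_iff _ _ _).2
        ⟨(a :: y, ⟨i + 1, hi⟩), Set.notMem_empty _, Or.inl ⟨rfl, rfl⟩⟩)

lemma conn : (tree 10 266).Conn := by
  have h : ∀ v : Option Ed, ReflTransGen ((tree 10 266).Step ∅) none v := by
    intro v
    match v with
    | none => exact ReflTransGen.refl
    | some (y, i) => exact from_none y i.1 i.2
  intro x y
  exact (symm_step _ (h x)).trans (h y)

lemma pred_lt (e e' : Ed) (h : pred (D := 10) (L := 266) e = some e') :
    267 * e'.1.length + e'.2.1 < 267 * e.1.length + e.2.1 := by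
  match e, h with
  | ([], ⟨0, _⟩), h => exact absurd h (by simp [pred])
  | (a :: y, ⟨0, _⟩), h =>
    have h1 : some (y, Fin.last 266) = some e' := h
    rw [← Option.some.inj h1]
    simp only [List.length_cons, Fin.val_last]
    omega
  | (y, ⟨i + 1, hi⟩), h =>
    have h1 : some (y, (⟨i, Nat.lt_of_succ_lt hi⟩ : Fin (266 + 1))) = some e' := by
      rw [← h]
      cases y <;> rfl
    rw [← Option.some.inj h1]
    simp

/-- **The zero-one law fails.** There are a connected infinite graph `G`, without loops and multiple edges
and with all degrees finite, and `p, q ≥ 1` such that Breaker wins the `(p,q)`-percolation game from every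
root, but for some root and some finite set `F` of edges Breaker has no winning strategy in the game with
head start `F`. -/
theorem result : ∃ (V E : Type) (_ : DecidableEq E) (G : MGraph V E) (p q : ℕ),
    Infinite V ∧ G.Conn ∧ (∀ e, (G.ends e).1 ≠ (G.ends e).2) ∧
    (∀ e e', (G.ends e = G.ends e' ∨ G.ends e = (G.ends e').swap) → e = e') ∧
    (∀ v, {e | (G.ends e).1 = v ∨ (G.ends e).2 = v}.Finite) ∧ 1 ≤ p ∧ 1 ≤ q ∧
    (∀ v₀ : V, BreakerWins G p q ∅ v₀) ∧
    ∃ (v₀ : V) (F : Finset E), ¬ BreakerWins G p q F v₀ := by
  refine ⟨Option Ed, Ed, inferInstance, tree 10 266, 3458, 114, inferInstance, conn, fun e h => ?_,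
    fun e e' h => ?_, fun v => ?_, by norm_num, by norm_num, breaker_wins, some ([], Fin.last 266), F₀,
    maker_wins⟩
  · exact absurd (pred_lt e e h) (lt_irrefl _)
  · rcases h with h | h
    · exact Option.some.inj (Prod.mk.inj h).2
    · exfalso
      have h1 : pred (D := 10) (L := 266) e = some e' := (Prod.mk.inj h).1
      have h2 : some e = pred (D := 10) (L := 266) e' := (Prod.mk.inj h).2
      have h3 := pred_lt e e' h1
      have h4 := pred_lt e' e h2.symm
      omega
  · match v with
    | none =>
      refine (Set.finite_singleton (([], 0) : Ed)).subset ?_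
      rintro e (h | h)
      · match e, h with
        | ([], ⟨0, _⟩), _ => rfl
        | (a :: y, ⟨0, _⟩), h => exact absurd h (by simp [tree, pred])
        | ([], ⟨i + 1, hi⟩), h => exact absurd h (by simp [tree, pred])
        | (a :: y, ⟨i + 1, hi⟩), h => exact absurd h (by simp [tree, pred])
      · exact absurd h (by simp [tree])
    | some (y, i) =>
      refine Set.Finite.subset ((Set.finite_range (fun j : Fin (266 + 1) => ((y, j) : Ed))).union
        (Set.finite_range (fun a : Fin 10 => ((a :: y, 0) : Ed)))) ?_
      rintro e (h | h)
      · match e, h with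
        | ([], ⟨0, _⟩), h => exact absurd h (by simp [tree, pred])
        | (a :: y', ⟨0, _⟩), h =>
          right
          have h1 : some (y', Fin.last 266) = some (y, i) := h
          have h2 : y' = y := (Prod.mk.inj (Option.some.inj h1)).1
          exact ⟨a, by rw [← h2]; rfl⟩
        | (y', ⟨k + 1, hk⟩), h =>
          left
          have h1 : some (y', (⟨k, Nat.lt_of_succ_lt hk⟩ : Fin (266 + 1))) = some (y, i) := by
            have h0 : pred (D := 10) (L := 266) (y', ⟨k + 1, hk⟩) = some (y, i) := h
            rw [← h0]
            cases y' <;> rfl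
          have h2 : y' = y := (Prod.mk.inj (Option.some.inj h1)).1
          exact ⟨⟨k + 1, hk⟩, by rw [← h2]⟩
      · left
        have h1 : e = (y, i) := Option.some.inj h
        exact ⟨i, h1.symm⟩

end Pool.Agent.Results.MP_aefbf4_co.ZeroOneLawFails
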